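import Pool.Agent.Q111.RBG.Basic

/-! # Homology of multiplication by a generic form of odd degree -/

namespace Pool.Agent.Q111.GenForm

open Finset Pool.Agent.Q111.RBG

variable {K : Type*} [Field K] {n : ℕ}

/-- Forms of degree `k` in the exterior algebra on `n` generators; zero for `k < 0`. -/
noncomputable def Form (K : Type*) [Field K] (n : ℕ) (k : ℤ) : Submodule K (Gr K n) :=
  Submodule.span K (E '' {S | (S.card : ℤ) = k})

lemma form_eq (k : ℤ) : Form K n k = sp fun S => (S.card : ℤ) = k := rfl

lemma form_mul {k l r : ℤ} (h : k + l = r) {x y : Gr K n} (hx : x ∈ Form K n k)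
    (hy : y ∈ Form K n l) : x * y ∈ Form K n r :=
  sp_mul (fun S T hS hT hd => by
    rw [Finset.card_union_of_disjoint hd]; push_cast; omega) hx hy

/-- the `j`-th block of `d` generators -/
def B (n d j : ℕ) : Finset (Fin n) := univ.filter fun i => i.val / d = j

lemma B_disj {d i j : ℕ} (h : i ≠ j) : Disjoint (B n d i) (B n d j) := by
  rw [Finset.disjoint_left]
  intro x hx hy
  simp only [B, Finset.mem_filter, Finset.mem_univ, true_and] at hx hy
  exact h (hx ▸ hy)

lemma B_card {d r j : ℕ} (hd : 0 < d) (hn : d * (r + 1) ≤ n) (hj : j < r + 1) :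
    (B n d j).card = d := by
  have h1 : (B n d j).map Fin.valEmbedding = Finset.Ico (j * d) (j * d + d) := by
    ext x
    simp only [B, Finset.mem_map, Finset.mem_filter, Finset.mem_univ, true_and,
      Fin.valEmbedding_apply, Finset.mem_Ico]
    constructor
    · rintro ⟨y, hy, rfl⟩
      rw [Nat.div_eq_iff hd] at hy
      omega
    · intro hx
      have h2 : j * d + d ≤ n := by
        calc j * d + d = d * (j + 1) := by ring
          _ ≤ d * (r + 1) := Nat.mul_le_mul_left d (by omega)
          _ ≤ n := hn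
      refine ⟨⟨x, by omega⟩, ?_, rfl⟩
      rw [Nat.div_eq_iff hd]
      simp only
      omega
  rw [← Finset.card_map Fin.valEmbedding, h1, Nat.card_Ico]
  omega

/-- the sign with `E B * E T = sg • E (B ∪ T)` -/
noncomputable def sg (K : Type*) [Field K] {n : ℕ} (B T : Finset (Fin n)) : K :=
  open Classical in if (E B * E T : Gr K n) = E (B ∪ T) then 1 else -1

lemma sg_spec {B T : Finset (Fin n)} (h : Disjoint B T) :
    (E B * E T : Gr K n) = sg K B T • E (B ∪ T) := by
  unfold sg
  split_ifs with h1
  · rw [h1, one_smul]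
  · rcases E_mul_d (F := K) h with h2 | h2
    · exact absurd h2 h1
    · rw [h2]; simp

lemma sg_sq (B T : Finset (Fin n)) : sg K B T * sg K B T = 1 := by
  unfold sg; split_ifs <;> simp

/-- contraction with the block `B` -/
noncomputable def D (K : Type*) [Field K] {n : ℕ} (B : Finset (Fin n)) :
    Module.End K (Gr K n) :=
  E.constr K fun S => if B ⊆ S then sg K B (S \ B) • E (S \ B) else 0

lemma D_E (B S : Finset (Fin n)) : D K B (E S) = if B ⊆ S then sg K B (S \ B) • E (S \ B) else 0 := by
  rw [D, Module.Basis.constr_basis]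

lemma D_mul {B : Finset (Fin n)} {y : Gr K n} (hy : y ∈ sp (F := K) fun S => Disjoint B S) :
    D K B (E B * y) = y := by
  induction hy using Submodule.span_induction with
  | zero => simp
  | add a b _ _ ha hb => rw [mul_add, map_add, ha, hb]
  | smul c a _ ha => rw [mul_smul_comm, map_smul, ha]
  | mem a ha =>
    obtain ⟨S, hS, rfl⟩ := ha
    have hS' : Disjoint B S := hS
    have e : (B ∪ S) \ B = S := by
      rw [Finset.union_sdiff_cancel_left hS']
    rw [sg_spec hS', map_smul, D_E, if_pos Finset.subset_union_left, e, smul_smul, sg_sq, one_smul]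

lemma D_zero {B : Finset (Fin n)} {y : Gr K n} (hy : y ∈ sp (F := K) fun S => ¬ B ⊆ S) :
    D K B y = 0 := by
  induction hy using Submodule.span_induction with
  | zero => simp
  | add a b _ _ ha hb => rw [map_add, ha, hb, add_zero]
  | smul c a _ ha => rw [map_smul, ha, smul_zero]
  | mem a ha =>
    obtain ⟨S, hS, rfl⟩ := ha
    rw [D_E, if_neg hS]

/-- left multiplication -/
noncomputable abbrev L (f : Gr K n) : Module.End K (Gr K n) := LinearMap.mulLeft K f

/-- every monomial containing `B` is `E B * c` with `c = D (E S)` -/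
lemma D_mem {B S : Finset (Fin n)} (h : B ⊆ S) :
    D K B (E S) ∈ (sp (F := K) fun T => Disjoint B T) ∧ E B * D K B (E S) = E S := by
  have hd : Disjoint B (S \ B) := Finset.disjoint_sdiff
  rw [D_E, if_pos h]
  refine ⟨Submodule.smul_mem _ _ (E_mem hd), ?_⟩
  rw [mul_smul_comm, sg_spec hd, smul_smul, sg_sq, one_smul, Finset.union_sdiff_of_subset h]

/-- homotopy identity for one block -/
lemma PB_self {B : Finset (Fin n)} (hB : B.Nonempty) (S : Finset (Fin n)) :
    (L (E B) * D K B + D K B * L (E B) : Module.End K (Gr K n)) (E S) =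
      if (¬ Disjoint B S ∧ ¬ B ⊆ S) then 0 else E S := by
  rw [LinearMap.add_apply, Module.End.mul_apply, Module.End.mul_apply, LinearMap.mulLeft_apply,
    LinearMap.mulLeft_apply]
  by_cases h1 : Disjoint B S
  · rw [if_neg (by tauto), D_mul (E_mem h1)]
    rw [D_zero (E_mem (P := fun S => ¬ B ⊆ S) ?_), mul_zero, zero_add]
    intro h
    obtain ⟨x, hx⟩ := hB
    exact Finset.disjoint_left.1 h1 hx (h hx)
  · rw [E_mul_nd h1, map_zero, add_zero]
    by_cases h2 : B ⊆ S
    · rw [if_neg (by tauto), (D_mem h2).2]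
    · rw [if_pos ⟨h1, h2⟩, D_E, if_neg h2, mul_zero]

lemma PB_other {B B' : Finset (Fin n)} (hd : Disjoint B B') (h1 : ¬ Even B.card)
    (h2 : ¬ Even B'.card) : L (E B') * D K B + D K B * L (E B') = 0 := by
  refine E.ext fun S => ?_
  rw [LinearMap.add_apply, Module.End.mul_apply, Module.End.mul_apply, LinearMap.mulLeft_apply,
    LinearMap.mulLeft_apply, LinearMap.zero_apply]
  by_cases h : B ⊆ S
  · obtain ⟨hm, he⟩ := D_mem (K := K) h
    set c := D K B (E S) with hc
    have hanti : (E B' * E B : Gr K n) = -(E B * E B') :=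
      odd_anti (k := 0) (l := 0) (E_mem ⟨Nat.zero_le _, h2⟩) (E_mem ⟨Nat.zero_le _, h1⟩)
    rw [← he, ← mul_assoc, hanti, neg_mul, map_neg, mul_assoc, D_mul, add_neg_cancel]
    refine sp_mul (P := fun T => T = B') (fun S T hS hT hd' => ?_) (E_mem rfl) hm
    rw [hS]
    exact Finset.disjoint_union_right.2 ⟨hd, hT⟩
  · rw [D_E, if_neg h, mul_zero, zero_add]
    apply D_zero
    refine sp_mul (P := fun T => T = B') (Q := fun T => T = S) (fun S1 T hS hT hd' => ?_)
      (E_mem rfl) (E_mem rfl)
    rw [hS, hT]
    intro hsub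
    apply h
    intro x hx
    rcases Finset.mem_union.1 (hsub hx) with hx' | hx'
    · exact absurd hx' (Finset.disjoint_left.1 hd hx)
    · exact hx'

section Hom

variable (K n) (d r : ℕ)

/-- the special form -/
noncomputable def f0 : Gr K n := ∑ j ∈ range (r + 1), E (B n d j)

/-- the projections -/
noncomputable def P (j : ℕ) : Module.End K (Gr K n) :=
  L (f0 K n d r) * D K (B n d j) + D K (B n d j) * L (f0 K n d r)

/-- the products -/
noncomputable def Q : ℕ → Module.End K (Gr K n)
  | 0 => 1
  | j + 1 => (1 - P K n d r j) * Q j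

/-- the homotopy -/
noncomputable def H : ℕ → Module.End K (Gr K n)
  | 0 => 0
  | j + 1 => H j + D K (B n d j) * Q K n d r j

end Hom

section

variable {d r : ℕ}

lemma P_E (hd : Odd d) (hn : d * (r + 1) ≤ n) {j : ℕ} (hj : j < r + 1) (S : Finset (Fin n)) :
    P K n d r j (E S) =
      if (¬ Disjoint (B n d j) S ∧ ¬ B n d j ⊆ S) then 0 else E S := by
  have hcard : ∀ i < r + 1, (B n d i).card = d := fun i hi => B_card hd.pos hn hi
  have hL : L (f0 K n d r) = ∑ i ∈ range (r + 1), L (E (B n d i)) := by
    rw [f0]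
    exact map_sum (LinearMap.mul K (Gr K n)) _ _
  have hP : P K n d r j = L (E (B n d j)) * D K (B n d j) + D K (B n d j) * L (E (B n d j)) := by
    rw [P, hL, Finset.sum_mul, Finset.mul_sum, ← Finset.sum_add_distrib,
      Finset.sum_eq_single j]
    · intro i hi hij
      refine PB_other (B_disj (Ne.symm hij)) ?_ ?_
      · rw [hcard j hj]; exact Nat.not_even_iff_odd.2 hd
      · rw [hcard i (Finset.mem_range.1 hi)]; exact Nat.not_even_iff_odd.2 hd
    · intro h; exact absurd (Finset.mem_range.2 hj) h
  rw [hP, PB_self]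
  rw [← Finset.card_pos, hcard j hj]
  exact hd.pos

lemma Q_E (hd : Odd d) (hn : d * (r + 1) ≤ n) {j : ℕ} (hj : j ≤ r + 1) (S : Finset (Fin n)) :
    (∃ i < j, Disjoint (B n d i) S ∨ B n d i ⊆ S) → Q K n d r j (E S) = 0 := by
  have key : ∀ j ≤ r + 1, Q K n d r j (E S) = E S ∨ Q K n d r j (E S) = 0 := by
    intro j
    induction j with
    | zero => intro _; left; simp [Q]
    | succ j ih =>
      intro hj
      rw [Q, Module.End.mul_apply]
      rcases ih (by omega) with h | h
      · rw [h, LinearMap.sub_apply, P_E hd hn (by omega)]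
        split_ifs
        · left; simp
        · right; simp
      · right; rw [h, map_zero]
  induction j with
  | zero => rintro ⟨i, hi, _⟩; omega
  | succ j ih =>
    rintro ⟨i, hi, h⟩
    rw [Q, Module.End.mul_apply]
    by_cases hij : i < j
    · rw [ih (by omega) ⟨i, hij, h⟩, map_zero]
    · have : i = j := by omega
      subst this
      rcases key i (by omega) with h1 | h1
      · rw [h1, LinearMap.sub_apply, P_E hd hn (by omega), if_neg (by tauto)]
        simp
      · rw [h1, map_zero]

lemma Q_top (hd : Odd d) (hn : d * (r + 1) ≤ n) {S : Finset (Fin n)} (hS : S.card = r) :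
    Q K n d r (r + 1) (E S) = 0 := by
  refine Q_E hd hn le_rfl S ?_
  by_contra hcon
  push Not at hcon
  have hsub : range (r + 1) ⊆ S.image fun i => i.val / d := by
    intro j hj
    have := (hcon j (Finset.mem_range.1 hj)).1
    rw [Finset.not_disjoint_iff] at this
    obtain ⟨x, hx, hxS⟩ := this
    simp only [B, Finset.mem_filter, Finset.mem_univ, true_and] at hx
    exact Finset.mem_image.2 ⟨x, hxS, hx⟩
  have h1 := Finset.card_le_card hsub
  have h2 := Finset.card_image_le (s := S) (f := fun i : Fin n => i.val / d)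
  rw [Finset.card_range] at h1
  omega

lemma f0_sq [CharZero K] (hd : Odd d) (hn : d * (r + 1) ≤ n) :
    f0 K n d r * f0 K n d r = 0 := by
  have h : f0 K n d r ∈ Jo (F := K) (n := n) 0 := by
    refine Submodule.sum_mem _ fun i hi => E_mem ⟨Nat.zero_le _, ?_⟩
    rw [B_card hd.pos hn (Finset.mem_range.1 hi)]
    exact Nat.not_even_iff_odd.2 hd
  have h1 := odd_anti h h
  have h2 : (2 : K) • (f0 K n d r * f0 K n d r) = 0 := by
    rw [two_smul]; nth_rewrite 1 [h1]; simp
  exact (smul_eq_zero.1 h2).resolve_left two_ne_zero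

lemma hom [CharZero K] (hd : Odd d) (hn : d * (r + 1) ≤ n) (j : ℕ) :
    L (f0 K n d r) * H K n d r j + H K n d r j * L (f0 K n d r) = 1 - Q K n d r j ∧
      L (f0 K n d r) * Q K n d r j = Q K n d r j * L (f0 K n d r) := by
  have hsq : L (f0 K n d r) * L (f0 K n d r) = 0 := by
    refine LinearMap.ext fun x => ?_
    change f0 K n d r * (f0 K n d r * x) = 0
    rw [← mul_assoc, f0_sq hd hn, zero_mul]
  induction j with
  | zero => simp [H, Q]
  | succ j ih =>
    obtain ⟨ih1, ih2⟩ := ih
    have hPc : L (f0 K n d r) * P K n d r j = P K n d r j * L (f0 K n d r) := by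
      rw [P, mul_add, add_mul, ← mul_assoc, hsq, zero_mul, zero_add, mul_assoc (D K (B n d j)),
        hsq, mul_zero, add_zero, mul_assoc]
    constructor
    · rw [H, Q, mul_add, add_mul]
      calc _ = (L (f0 K n d r) * H K n d r j + H K n d r j * L (f0 K n d r)) +
            (L (f0 K n d r) * D K (B n d j) * Q K n d r j +
              D K (B n d j) * (Q K n d r j * L (f0 K n d r))) := by
              simp only [mul_assoc]; abel
        _ = 1 - Q K n d r j + P K n d r j * Q K n d r j := by
              rw [ih1, ← ih2, ← mul_assoc (D K (B n d j)), ← add_mul]; rfl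
        _ = _ := by rw [sub_mul, one_mul]; abel
    · have h1 : L (f0 K n d r) * (1 - P K n d r j) = (1 - P K n d r j) * L (f0 K n d r) := by
        rw [mul_sub, sub_mul, mul_one, one_mul, hPc]
      rw [Q, ← mul_assoc, h1, mul_assoc, ih2, mul_assoc]

end

end Pool.Agent.Q111.GenForm
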