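import Pool.Agent.Q111.GenForm.Basic
import Mathlib.RingTheory.AlgebraicIndependent.Basic
import Mathlib.LinearAlgebra.Matrix.ToLinearEquiv

/-! # Homology of multiplication by a generic form of odd degree: the main argument -/

namespace Pool.Agent.Q111.GenForm

open Finset Pool.Agent.Q111.RBG

variable {K : Type*} [Field K] {n : ℕ}

/-! ### degrees -/

/-- `G` raises degrees by `e` -/
def Deg (G : Module.End K (Gr K n)) (e : ℤ) : Prop :=
  ∀ k, ∀ x ∈ Form K n k, G x ∈ Form K n (k + e)

lemma deg_of {G : Module.End K (Gr K n)} {e : ℤ}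
    (h : ∀ S : Finset (Fin n), G (E S) ∈ Form K n (S.card + e)) : Deg G e := by
  intro k x hx
  rw [form_eq] at hx
  induction hx using Submodule.span_induction with
  | zero => rw [map_zero]; exact Submodule.zero_mem _
  | add a b _ _ ha hb => rw [map_add]; exact Submodule.add_mem _ ha hb
  | smul c a _ ha => rw [map_smul]; exact Submodule.smul_mem _ _ ha
  | mem a ha =>
    obtain ⟨S, hS, rfl⟩ := ha
    have := h S
    rwa [show (S.card : ℤ) = k from hS] at this

lemma Deg.mul {G G' : Module.End K (Gr K n)} {e e' e'' : ℤ} (hG : Deg G e) (hG' : Deg G' e')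
    (h : e' + e = e'') : Deg (G * G') e'' := by
  intro k x hx
  have := hG _ _ (hG' k x hx)
  rwa [add_assoc, h] at this

lemma Deg.add {G G' : Module.End K (Gr K n)} {e : ℤ} (hG : Deg G e) (hG' : Deg G' e) :
    Deg (G + G') e := fun k x hx => Submodule.add_mem _ (hG k x hx) (hG' k x hx)

lemma Deg.sub {G G' : Module.End K (Gr K n)} {e : ℤ} (hG : Deg G e) (hG' : Deg G' e) :
    Deg (G - G') e := fun k x hx => Submodule.sub_mem _ (hG k x hx) (hG' k x hx)

lemma Deg.one : Deg (1 : Module.End K (Gr K n)) 0 := fun k x hx => by simpa using hx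

lemma Deg.zero {e : ℤ} : Deg (0 : Module.End K (Gr K n)) e := fun k x _ => Submodule.zero_mem _

lemma Deg.L {f : Gr K n} {e : ℤ} (hf : f ∈ Form K n e) : Deg (L f) e := fun k x hx =>
  form_mul (by ring) hf hx

lemma Deg.D {B : Finset (Fin n)} : Deg (D K B) (-(B.card : ℤ)) := by
  refine deg_of fun S => ?_
  rw [D_E]
  split_ifs with h
  · refine Submodule.smul_mem _ _ (E_mem ?_)
    rw [Finset.card_sdiff_of_subset h]
    have := Finset.card_le_card h
    omega
  · exact Submodule.zero_mem _

variable {d r : ℕ}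

lemma f0_form (hd : Odd d) (hn : d * (r + 1) ≤ n) : f0 K n d r ∈ Form K n d :=
  Submodule.sum_mem _ fun i hi => E_mem (by
    rw [B_card hd.pos hn (Finset.mem_range.1 hi)])

lemma H_deg (hd : Odd d) (hn : d * (r + 1) ≤ n) {j : ℕ} (hj : j ≤ r + 1) :
    Deg (H K n d r j) (-(d : ℤ)) ∧ Deg (Q K n d r j) 0 := by
  induction j with
  | zero => exact ⟨Deg.zero, Deg.one⟩
  | succ j ih =>
    obtain ⟨h1, h2⟩ := ih (by omega)
    have hD : Deg (D K (B n d j)) (-(d : ℤ)) := by
      have := Deg.D (K := K) (B := B n d j)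
      rwa [B_card hd.pos hn (by omega)] at this
    have hL : Deg (L (f0 K n d r)) d := Deg.L (f0_form hd hn)
    refine ⟨h1.add (hD.mul h2 (by ring)), ?_⟩
    refine (Deg.one.sub ?_).mul h2 (by ring)
    exact (hL.mul hD (by ring)).add (hD.mul hL (by ring))

/-! ### rationality -/

section Rat

variable [CharZero K]

/-- all coordinates rational -/
def IsRat (x : Gr K n) : Prop := ∀ S, ∃ q : ℚ, E.repr x S = (q : K)

omit [CharZero K] in
lemma IsRat.zero : IsRat (0 : Gr K n) := fun S => ⟨0, by simp⟩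

lemma IsRat.add {x y : Gr K n} (hx : IsRat x) (hy : IsRat y) : IsRat (x + y) := fun S => by
  obtain ⟨a, ha⟩ := hx S
  obtain ⟨b, hb⟩ := hy S
  exact ⟨a + b, by rw [map_add, Finsupp.add_apply, ha, hb]; push_cast; ring⟩

lemma IsRat.smul {x : Gr K n} (q : ℚ) (hx : IsRat x) : IsRat ((q : K) • x) := fun S => by
  obtain ⟨a, ha⟩ := hx S
  exact ⟨q * a, by rw [map_smul, Finsupp.smul_apply, ha, smul_eq_mul]; push_cast; ring⟩

lemma IsRat.neg {x : Gr K n} (hx : IsRat x) : IsRat (-x) := by
  have := IsRat.smul (-1) hx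
  simpa using this

lemma IsRat.sub {x y : Gr K n} (hx : IsRat x) (hy : IsRat y) : IsRat (x - y) := by
  rw [sub_eq_add_neg]; exact hx.add hy.neg

lemma IsRat.sum {ι : Type*} (s : Finset ι) (f : ι → Gr K n) (h : ∀ i ∈ s, IsRat (f i)) :
    IsRat (∑ i ∈ s, f i) := by
  classical
  induction s using Finset.induction_on with
  | empty => simpa using IsRat.zero
  | insert i s hi ih =>
    rw [Finset.sum_insert hi]
    exact (h i (Finset.mem_insert_self _ _)).add (ih fun j hj => h j (Finset.mem_insert_of_mem hj))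

omit [CharZero K] in
lemma IsRat.E (S : Finset (Fin n)) : IsRat (RBG.E S : Gr K n) := fun T => by
  rw [Module.Basis.repr_self, Finsupp.single_apply]
  split_ifs
  · exact ⟨1, by simp⟩
  · exact ⟨0, by simp⟩

lemma IsRat.EE (S T : Finset (Fin n)) : IsRat (RBG.E S * RBG.E T : Gr K n) := by
  by_cases h : Disjoint S T
  · rcases E_mul_d (F := K) h with h1 | h1 <;> rw [h1]
    · exact IsRat.E _
    · exact (IsRat.E _).neg
  · rw [E_mul_nd h]; exact IsRat.zero

/-- rational operators -/
def RatE (G : Module.End K (Gr K n)) : Prop := ∀ S, IsRat (G (RBG.E S))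

lemma RatE.app {G : Module.End K (Gr K n)} (hG : RatE G) {x : Gr K n} (hx : IsRat x) :
    IsRat (G x) := by
  rw [← E.sum_repr x, map_sum]
  refine IsRat.sum _ _ fun S _ => ?_
  obtain ⟨q, hq⟩ := hx S
  rw [map_smul, hq]
  exact (hG S).smul q

lemma RatE.mul {G G' : Module.End K (Gr K n)} (hG : RatE G) (hG' : RatE G') :
    RatE (G * G') := by
  intro S
  rw [Module.End.mul_apply]
  exact hG.app (hG' S)

lemma RatE.add {G G' : Module.End K (Gr K n)} (hG : RatE G) (hG' : RatE G') :
    RatE (G + G') := by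
  intro S
  rw [LinearMap.add_apply]
  exact (hG S).add (hG' S)

lemma RatE.sub {G G' : Module.End K (Gr K n)} (hG : RatE G) (hG' : RatE G') :
    RatE (G - G') := by
  intro S
  rw [LinearMap.sub_apply]
  exact (hG S).sub (hG' S)

lemma RatE.LE (U : Finset (Fin n)) : RatE (L (E U : Gr K n)) := by
  intro S
  rw [LinearMap.mulLeft_apply]
  exact IsRat.EE U S

omit [CharZero K] in
lemma sg_cases (B S : Finset (Fin n)) : sg K B S = 1 ∨ sg K B S = -1 := by
  have h := sg_sq (K := K) B S
  exact mul_self_eq_one_iff.1 h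

lemma IsRat.sg (B S : Finset (Fin n)) {x : Gr K n} (hx : IsRat x) :
    IsRat (sg K B S • x) := by
  rcases sg_cases (K := K) B S with h | h
  · rw [h, one_smul]; exact hx
  · rw [h, neg_smul, one_smul]; exact hx.neg

lemma RatE.D (B : Finset (Fin n)) : RatE (D K B) := by
  intro S
  rw [D_E]
  by_cases h : B ⊆ S
  · rw [if_pos h]
    exact IsRat.sg _ _ (IsRat.E _)
  · rw [if_neg h]; exact IsRat.zero

lemma RatE.Lf0 : RatE (L (f0 K n d r)) := by
  intro S
  rw [LinearMap.mulLeft_apply, f0, Finset.sum_mul]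
  exact IsRat.sum _ _ fun i _ => IsRat.EE _ _

omit [CharZero K] in
lemma RatE.zero : RatE (0 : Module.End K (Gr K n)) := by
  intro S
  rw [LinearMap.zero_apply]
  exact IsRat.zero

omit [CharZero K] in
lemma RatE.one : RatE (1 : Module.End K (Gr K n)) := by
  intro S
  rw [Module.End.one_apply]
  exact IsRat.E S

lemma H_rat (j : ℕ) : RatE (H K n d r j) ∧ RatE (Q K n d r j) := by
  induction j with
  | zero => exact ⟨RatE.zero, RatE.one⟩
  | succ j ih =>
    obtain ⟨h1, h2⟩ := ih
    refine ⟨h1.add ((RatE.D _).mul h2), ?_⟩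
    have h3 := (RatE.Lf0 (K := K) (n := n) (d := d) (r := r)).mul (RatE.D (B n d j))
    have h4 := (RatE.D (K := K) (B n d j)).mul (RatE.Lf0 (K := K) (n := n) (d := d) (r := r))
    exact (RatE.one.sub (h3.add h4)).mul h2

end Rat

/-! ### coordinates of forms -/

lemma repr_zero {P : Finset (Fin n) → Prop} {x : Gr K n} (hx : x ∈ sp P) {S : Finset (Fin n)}
    (hS : ¬ P S) : E.repr x S = 0 := by
  induction hx using Submodule.span_induction with
  | zero => simp
  | add a b _ _ ha hb => rw [map_add, Finsupp.add_apply, ha, hb, add_zero]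
  | smul c a _ ha => rw [map_smul, Finsupp.smul_apply, ha, smul_zero]
  | mem a ha =>
    obtain ⟨T, hT, rfl⟩ := ha
    rw [Module.Basis.repr_self, Finsupp.single_apply, if_neg]
    rintro rfl
    exact hS hT

/-- index type of monomials of degree `k` -/
abbrev Mon (n k : ℕ) := {S : Finset (Fin n) // S.card = k}

lemma form_sum {k : ℕ} {x : Gr K n} (hx : x ∈ Form K n k) :
    x = ∑ S : Mon n k, E.repr x S.1 • E S.1 := by
  classical
  have h1 : x = ∑ S ∈ univ.filter (fun S : Finset (Fin n) => S.card = k), E.repr x S • E S := by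
    conv_lhs => rw [← E.sum_repr x]
    rw [Finset.sum_filter]
    refine Finset.sum_congr rfl fun S _ => ?_
    split_ifs with h
    · rfl
    · rw [form_eq] at hx
      rw [repr_zero hx (by exact_mod_cast h), zero_smul]
  conv_lhs => rw [h1]
  exact Finset.sum_subtype (univ.filter (fun S : Finset (Fin n) => S.card = k))
    (fun S => by simp) (fun S => E.repr x S • E S)

/-- the operator `f h + h f` -/
noncomputable def Phi (d r : ℕ) (f : Gr K n) : Module.End K (Gr K n) :=
  L f * H K n d r (r + 1) + H K n d r (r + 1) * L f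

lemma Phi_sum {ι : Type*} (s : Finset ι) (c : ι → K) (g : ι → Gr K n) :
    Phi d r (∑ i ∈ s, c i • g i) = ∑ i ∈ s, c i • Phi d r (g i) := by
  refine LinearMap.ext fun x => ?_
  simp only [Phi, LinearMap.add_apply, Module.End.mul_apply, LinearMap.mulLeft_apply,
    Finset.sum_mul, map_sum, LinearMap.sum_apply, LinearMap.smul_apply, smul_mul_assoc, map_smul,
    smul_add, Finset.sum_add_distrib]

section Det

variable [CharZero K]

/-- the matrix of `Phi f` in degree `r` -/
noncomputable def M (d r : ℕ) (f : Gr K n) : Matrix (Mon n r) (Mon n r) K :=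
  fun S T => E.repr (Phi d r f (E T.1)) S.1

lemma exists_poly :
    ∃ N : Matrix (Mon n r) (Mon n r) (MvPolynomial (Mon n d) ℚ),
      ∀ f ∈ Form K n d, N.map (MvPolynomial.aeval fun U : Mon n d => (E.repr f U.1 : K)) =
        M d r f := by
  classical
  have hq : ∀ (U : Mon n d) (S T : Mon n r), ∃ q : ℚ,
      E.repr (Phi d r (E U.1 : Gr K n) (E T.1)) S.1 = (q : K) := by
    intro U S T
    have h1 : RatE (Phi d r (E U.1 : Gr K n)) :=
      ((RatE.LE U.1).mul (H_rat _).1).add ((H_rat _).1.mul (RatE.LE U.1))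
    exact h1 T.1 S.1
  choose q hq using hq
  refine ⟨Matrix.of fun S T => ∑ U : Mon n d, MvPolynomial.C (q U S T) * MvPolynomial.X U, ?_⟩
  intro f hf
  ext S T
  rw [Matrix.map_apply, Matrix.of_apply, map_sum]
  simp only [map_mul, MvPolynomial.aeval_X, MvPolynomial.aeval_C]
  have h2 : M d r f S T = ∑ U : Mon n d, E.repr f U.1 * (q U S T : K) := by
    rw [M]
    conv_lhs => rw [form_sum hf, Phi_sum]
    rw [LinearMap.sum_apply, map_sum, Finsupp.finsetSum_apply]
    refine Finset.sum_congr rfl fun U _ => ?_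
    rw [LinearMap.smul_apply, map_smul, Finsupp.smul_apply, hq, smul_eq_mul]
  rw [h2]
  refine Finset.sum_congr rfl fun U _ => ?_
  rw [mul_comm]
  rfl

lemma det_ne (hd : Odd d) (hn : d * (r + 1) ≤ n) {f : Gr K n} (hf : f ∈ Form K n d)
    (hgen : AlgebraicIndependent ℚ fun U : Mon n d => (E.repr f U.1 : K)) :
    (M d r f).det ≠ 0 := by
  classical
  obtain ⟨N, hN⟩ := exists_poly (K := K) (n := n) (d := d) (r := r)
  have h1 : (M d r (f0 K n d r)).det = 1 := by
    have : M d r (f0 K n d r) = 1 := by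
      ext S T
      have h2 := (hom (K := K) hd hn (r + 1)).1
      rw [M, Phi, h2, LinearMap.sub_apply, Q_top hd hn T.2, sub_zero, Module.End.one_apply,
        Module.Basis.repr_self, Finsupp.single_apply, Matrix.one_apply]
      simp only [eq_comm, Subtype.ext_iff]
    rw [this, Matrix.det_one]
  have h2 : N.det ≠ 0 := by
    intro h0
    have h3 := hN _ (f0_form hd hn)
    have h4 := AlgHom.map_det (MvPolynomial.aeval fun U : Mon n d => (E.repr (f0 K n d r) U.1 : K)) N
    rw [h0, map_zero] at h4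
    have h5 : ((MvPolynomial.aeval fun U : Mon n d =>
        (E.repr (f0 K n d r) U.1 : K)).mapMatrix N) = M d r (f0 K n d r) := h3
    rw [h5, h1] at h4
    exact zero_ne_one h4
  intro h0
  have h3 := hN _ hf
  have h4 := AlgHom.map_det (MvPolynomial.aeval fun U : Mon n d => (E.repr f U.1 : K)) N
  have h5 : ((MvPolynomial.aeval fun U : Mon n d => (E.repr f U.1 : K)).mapMatrix N) =
    M d r f := h3
  rw [h5, h0] at h4
  exact h2 (hgen.eq_zero_of_aeval_eq_zero _ h4)

lemma Phi_inj (hd : Odd d) (hn : d * (r + 1) ≤ n) {f : Gr K n} (hf : f ∈ Form K n d)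
    (hgen : AlgebraicIndependent ℚ fun U : Mon n d => (E.repr f U.1 : K)) {x : Gr K n}
    (hx : x ∈ Form K n r) (h0 : Phi d r f x = 0) : x = 0 := by
  classical
  have hdet := det_ne hd hn hf hgen
  have h1 : (M d r f).mulVec (fun T => E.repr x T.1) = 0 := by
    ext S
    rw [Matrix.mulVec, dotProduct]
    have h2 : E.repr (Phi d r f x) S.1 = ∑ T : Mon n r, M d r f S T * E.repr x T.1 := by
      conv_lhs => rw [form_sum hx, map_sum, map_sum, Finsupp.finsetSum_apply]
      refine Finset.sum_congr rfl fun T _ => ?_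
      rw [map_smul, map_smul, Finsupp.smul_apply, smul_eq_mul, mul_comm]
      rfl
    rw [← h2, h0]; simp
  have h2 := Matrix.eq_zero_of_mulVec_eq_zero hdet h1
  rw [form_sum hx]
  refine Finset.sum_eq_zero fun S _ => ?_
  have := congrFun h2 S
  simp only [Pi.zero_apply] at this
  rw [this, zero_smul]

lemma sq_zero (hd : Odd d) {f : Gr K n} (hf : f ∈ Form K n d) : f * f = 0 := by
  have h : f ∈ Jo (F := K) (n := n) 0 := by
    refine sp_mono (fun S hS => ⟨Nat.zero_le _, ?_⟩) hf
    have : S.card = d := by exact_mod_cast hS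
    rw [this]; exact Nat.not_even_iff_odd.2 hd
  have h1 := odd_anti h h
  have h2 : (2 : K) • (f * f) = 0 := by
    rw [two_smul]; nth_rewrite 1 [h1]; simp
  exact (smul_eq_zero.1 h2).resolve_left two_ne_zero

theorem exactness (hd : Odd d) (hn : d * (r + 1) ≤ n) {f : Gr K n} (hf : f ∈ Form K n d)
    (hgen : AlgebraicIndependent ℚ fun U : Mon n d => (E.repr f U.1 : K)) {g : Gr K n}
    (hg : g ∈ Form K n r) (h0 : f * g = 0) : ∃ h ∈ Form K n ((r : ℤ) - d), f * h = g := by
  have hsq : f * f = 0 := sq_zero hd hf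
  set Z : Submodule K (Gr K n) := Form K n r ⊓ LinearMap.ker (L f) with hZ
  set I : Submodule K (Gr K n) := (Form K n ((r : ℤ) - d)).map (L f) with hI
  have hIZ : I ≤ Z := by
    rintro _ ⟨y, hy, rfl⟩
    refine ⟨?_, ?_⟩
    · exact form_mul (by ring) hf hy
    · change f * (f * y) = 0
      rw [← mul_assoc, hsq, zero_mul]
  have hPhi : ∀ x ∈ Z, Phi d r f x ∈ I := by
    rintro x ⟨hx, hx0⟩
    have hx0' : f * x = 0 := hx0
    refine ⟨H K n d r (r + 1) x, ?_, ?_⟩
    · have := (H_deg (K := K) hd hn le_rfl).1 _ _ hx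
      rwa [← sub_eq_add_neg] at this
    · have hx1 : L f x = 0 := hx0'
      rw [Phi, LinearMap.add_apply, Module.End.mul_apply, Module.End.mul_apply, hx1, map_zero,
        add_zero]
  let φ : Z →ₗ[K] I := (Phi d r f).restrict hPhi
  have hφ : Function.Injective φ := by
    rw [← LinearMap.ker_eq_bot, LinearMap.ker_eq_bot']
    rintro ⟨x, hx⟩ h
    have h' : Phi d r f x = 0 := congrArg Subtype.val h
    have := Phi_inj hd hn hf hgen hx.1 h'
    exact Subtype.ext this
  have : FiniteDimensional K (Gr K n) := Module.Finite.of_basis E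
  have hfin : Module.finrank K Z ≤ Module.finrank K I :=
    LinearMap.finrank_le_finrank_of_injective hφ
  have heq : I = Z := Submodule.eq_of_le_of_finrank_le hIZ hfin
  have hgZ : g ∈ Z := ⟨hg, h0⟩
  rw [← heq] at hgZ
  obtain ⟨h, hh, hfg⟩ := hgZ
  exact ⟨h, hh, hfg⟩

end Det

end Pool.Agent.Q111.GenForm
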